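import Pool.Agent.Lib.MP_d175a7_gt.FinH

/-!
# MP_d175a7_gt, Q1: multiplication by `v` on `F_* K(B)` is not surjective in high degrees

For the homotopy fibre product `B = e_n ×_{Hk} e_n ×_{Hk} e_n ×_{Hk} e_n` of four copies of connective
Morava E-theory over the Eilenberg-Mac Lane spectrum of its residue field `k` (every prime `p`, every
height `n ≥ 1`) and for EVERY finite `F ≠ 0` with a `v_{n+1}` self map `v : Σ^d F → F`, the
homomorphism `v_* : F_{*-d} K(B) → F_* K(B)` fails to be surjective in infinitely many degrees.  So
clause (1) of Q1 fails as posed.  `B` is an order, not regular: `B[1/p]` is the product of four copies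
of `e_n[1/p]`, étale over `e_n[1/p]`.  For regular `B` (or `B` the ring of integers) Q1 stays open.

The theorem `result` below is a statement about commutative orthogonal ring spectra `e`, `H` with the
properties of `e_n`, `Hk` which are used; these are hypotheses, standard facts for `e_n` and `Hk`;
`e_n` itself is not constructed here.  All conditions of Q1 on `B` are proved.

## 1. The hypotheses of `result`, for `e = e_n`, `H = Hk`

* `e`, `H`, `ρ`: `E_∞` ring spectra are modelled by commutative orthogonal ring spectra
  (Mandell-May-Schwede-Shipley); `e` is a model of the connective cover of `E_n`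
  (Goerss-Hopkins-Miller), `ρ : e → H` a model of `e_n → H π_0 (e_n) → Hk`.  Spaces: the maps are the
  functions which are continuous on compact Hausdorff probes, i.e. the maps of compactly generated
  spaces; base points are closed.  Homotopy groups are written as loops: `Lp R.self.seq a n` is the
  set of the maps `(I^a, ∂I^a) → (R_n, pt)`, which represent elements of `π_(a-n) R`, and `StEq x y`
  says that `x` and `y` represent the same element.
* `he`, `hei`: `e` is connective, and `π_0 (e_n) = W(k)[[u_1, …, u_{n-1}]]` is a local ring, so it has
  only trivial idempotents.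
* `hH`, `hH'`, `hρ`, `hp`: `H` is connective, its homotopy groups in positive degrees vanish,
  `π_0 e → π_0 H` is surjective, `p = 0` in `π_0 H = k` (`nsm H p` is the `p`-fold sum of the unit).
* `hHs`: `H` is a semi-finite `e`-module; `Hk = e_n / (p, u_1, …, u_{n-1}, u)` is a finite cell
  `e_n`-module.  `SemiFin e` is the thick subcategory generated by `e`, which is the class of the
  retracts of finite cell modules, up to weak equivalence.
* `Λ = π_0 (e_n) / (p², u_1, …, u_{n-1}) = W_2(k)`: here `p² = 0` and every element killed by `p` is a
  multiple of `p`.  `Q` is the ring homomorphism `π_0 (e_n) → Λ`, `q` the isomorphism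
  `π_0 (Hk) = k = Λ / p`.

## 2. `B` satisfies the conditions of Q1

All of the following is part of the conclusion of `result`: `B` is a commutative `e`-algebra
(`ι : e → B`) with four homomorphisms `pr i : B → e` of commutative `e`-algebras; every homomorphism
`e → M` to a commutative ring spectrum extends to `B`, so `B` maps to `M = E_n[1/p]`, the trivial
Galois extension (and to every other one); `B` is connective; `B` is connected, i.e. `π_0 B` has only
trivial idempotents; `B` is a semi-finite `e`-module.  Moreover `B` is an order in `e^4`:
`π_k B → (π_k e)^4` is injective (for `k ≥ 0`) and its cokernel is killed by `p`.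

## 3. `K(B)`

`Kth R` is the usual group completion model: `FC R` is the strict monoidal category of the
`R`-modules which are weakly equivalent to some `R^r`, and the weak equivalences (objects: finite lists
of such modules `P` together with a zigzag of weak equivalences `R^r ← P' → P'' ← P`; such a zigzag
exists for every module weakly equivalent to `R^r`, with `P'` a cofibrant replacement of `R^r` and
`P''` a fibrant replacement of `P`; morphisms: weak equivalences between the product modules; product:
concatenation).  The nerve of the category is `⊔_r B hAut(R^r)` (Dwyer-Kan); weak equivalence =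
`π_*`-isomorphism; products of modules are coproducts up to weak equivalence.  `Wb` is the classifying
space (`Wbar`) of this simplicial monoid and `Kth R` the Kan loop group of it, i.e.
`Ω B (⊔_r B hAut(R^r))`; it has the homotopy type of the infinite loop space of `K(R)` on base point
components.  It is a simplicial group, so a Kan complex, and `Cls X (Kth R)` is the set of pointed
homotopy classes `[X, Ω^∞ K(R)]_*` for connected `X`.

## 4. Translation

`F ≠ 0` is a finite `p`-local spectrum of type `≥ n + 1 ≥ 2`, so it is `p`-torsion and its dual `DF` is
a finite spectrum.  For some `t` the spectrum `Σ^t DF` is the suspension spectrum of a finite complex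
with minimal cells, i.e. of a finite pointed simplicial set `A` of dimension
`D = max {i : H_i (A; F_p) ≠ 0}` (`DimLe A D`, `HNe p A D`).  The dual `Σ^d DF → DF` of `v` is (after
enlarging `t`) the stable class of a map `|Σ^d A| → |A|`, which is represented by maps of simplicial
sets `Σ^d A ← At → A`, the first one, `s`, a weak equivalence (simplicial approximation, `At` an
iterated subdivision of `Σ^d A`, `s` the last vertex map), so that `s` is surjective on homology
(`HSur p s (D + d)`; this is the only property of `s` used).  `d ≥ 1` holds for every `v_{n+1}` self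
map of `F` of type `n + 1`.

`F_j K(B) = π_j (F ∧ K(B)) = [Σ^j DF, K(B)]`, and `v_*` is the composition with the dual of `v`.  So
for `j ≥ 1` the group `F_{j+t} K(B)` is `[Σ^j A, Kth B]_*`, and
`v_* : F_{j+t} K(B) → F_{j+t+d} K(B) = [Σ^j Σ^d A, Kth B]_*` is `w^*` followed by the inverse of the
bijection `s^*`.  Hence `v_*` is surjective in this degree if and only if
`w^* : [Σ^j A, Kth B]_* → [Σ^j At, Kth B]_*` is surjective.  By `result` it is not for infinitely
many `j` (in fact for all `j` such that `m = D + d + j` is odd, `≥ 3` and prime to `p`).

Remark (not part of `result`): clause (2) of Q1 fails for the same `B`.  Take `F` of type `n + 1`; it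
is `p`-torsion, so if `K(B) → L^f_{n+1} K(B)` were a `p`-adic equivalence in high degrees, then
`F_* K(B) → F_* L^f_{n+1} K(B) = F_* K(B)[1/v]` would be bijective in high degrees, and `v_*` too.

## 5. Idea of the proof

`π_0 (B) → k[ε]`, `w ↦ w_0 + ε ∑_i (w_i - w_0) / p`, is a ring homomorphism; it gives for the weak
equivalences between free modules matrices over `k[ε]`, and a normalised cocycle on `Kth B`, additive
for the group structure.  Let `t_a ∈ π_0 (B)` be `p` in the slot `a` and zero in the other slots,
`t_a t_b = 0` for `a ≠ b`.  For a colouring `β` of the cycle `Z/m` with three colours, neighbours having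
different colours (`m` odd), the matrices `1 + t_{β(i)} E_{i+1,i}` commute, and they can be
realised by strictly commuting maps of modules; this gives a cube in the nerve, whose alternating
product is a map `(Δ^1)^m / ∂ → Kth B`, and the value of the cocycle on its fundamental class is
`± m ≠ 0` in `k`.  All cocycles of degree `m` vanish on `Σ^j A` (dimension `< m`), but not on the
class in `[Σ^j At, Kth B]_*` obtained from the cube.
-/

set_option autoImplicit false
set_option linter.unusedVariables false

namespace Pool.Agent.Results.MP_d175a7_gt.FibreProductOrder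

open Pool.Agent.MP_d175a7_gt

universe u v

/-- Let `ρ : e → H` be a homomorphism of commutative orthogonal ring spectra, `e` connective with
only trivial idempotents in `π_0 e`, `H` connective with `π_k H = 0` for `k > 0` and semi-finite as
an `e`-module, `π_0 e → π_0 H` surjective, `p = 0` in `π_0 H`; let `Λ` be a nonzero commutative ring
in which `p² = 0` and the annihilator of `p` is `p Λ`, and `Q : π_0 e → Λ`, `q : π_0 H → Λ / p`
ring homomorphisms with `q ρ = Q` modulo `p`.

Then there is a commutative orthogonal ring spectrum `B` with homomorphisms `ι : e → B` and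
`pr i : B → e`, `i = 0, …, 3`, `pr i ∘ ι = id`, such that: every homomorphism `e → M` extends to
`B`; `B` is connective; `B` has only trivial idempotents in `π_0 B`; `B` is a semi-finite
`e`-module; `π_k B → (π_k e)^4` is injective for `k ≥ 0`, with cokernel killed by `p` (for all
`k`); and for all pointed simplicial sets `A` of dimension `≤ D` with `H_D (A; F_p) ≠ 0`, all
`d ≥ 1`, all `s : At → Σ^d A` which are surjective on `H_{D+d} (·; F_p)`, and all `w : At → A`, the
map `w^* : [Σ^j A, K(B)] → [Σ^j At, K(B)]` is not surjective for arbitrarily large `j`. -/
theorem result {p : ℕ} [Fact p.Prime] {e H : RSp} (ρ : RHom e H)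
    (he : Connective e) (hei : Conn e) (hH : Connective H) (hH' : PosZero H)
    (hHs : SemiFin e (H.self.res ρ))
    (hρ : ∀ (a : ℕ) (y : Lp H.self.seq a a), ∃ (j : ℕ) (x : Lp e.self.seq (a + j) (a + j)),
      StEq (ρ.sh.lp x) (stn j y))
    (hp : StEq (nsm H p) (cstLp H.self.seq 1 1))
    {Λ : Type} [CommRing Λ] [Nontrivial Λ] (hΛ : (p : Λ) ^ 2 = 0)
    (hf : ∀ x : Λ, (p : Λ) * x = 0 → ∃ y, x = p * y)
    (Q : RCh e Λ) (q : RCh H (ResP p Λ)) (hq : ∀ (a : ℕ) (x : Lp e.self.seq a a),
      q.Q a (ρ.sh.lp x) = Ideal.Quotient.mk _ (Q.Q a x)) :
    ∃ (B : RSp) (ι : RHom e B) (pr : Fin 4 → RHom B e),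
      (∀ i n x, (pr i).f n (ι.f n x) = x) ∧
      (∀ (M : RSp) (φ : RHom e M), ∃ ψ : RHom B M, ∀ n x, ψ.f n (ι.f n x) = φ.f n x) ∧
      Connective B ∧ Conn B ∧ SemiFin e (B.self.res ι) ∧
      (∀ a n : ℕ, n ≤ a → ∀ z z' : Lp B.self.seq a n,
        (∀ i, StEq ((pr i).sh.lp z) ((pr i).sh.lp z')) → StEq z z') ∧
      (∀ (a n : ℕ) (x : Fin 4 → Lp e.self.seq a n),
        ∃ (j : ℕ) (z : Lp B.self.seq (1 + a + j) (1 + n + j)),
          ∀ i, StEq ((pr i).sh.lp z) (stn j (ext (P := e.self) (nsm e p) (x i)))) ∧
      ∀ (D d : ℕ), 0 < d → ∀ (A : PS.{u}) (At : PS.{v}), DimLe A D → HNe p A D →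
        ∀ s : PMap At (Susp d A), HSur p s (D + d) → ∀ (w : PMap At A) (N : ℕ),
          ∃ j, N ≤ j ∧ ¬ Function.Surjective
            (Cls.pre (Susp.pmap j w) : Cls (Susp j A) (Kth B) → Cls (Susp j At) (Kth B)) :=
  bh_final ρ he hei hH hH' hHs hρ hp hΛ hf Q q hq

end Pool.Agent.Results.MP_d175a7_gt.FibreProductOrder
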