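import Pool.Agent.Lib.MP_d175a7_gt.FinW

/-!
# MP_d175a7_gt, Q1: multiplication by `v` on `F_* K(B)` is not surjective in high degrees, for an
# order `B` in a nontrivial Galois extension

Let `e_n` be the connective Morava E-theory of a formal group of height `n ≥ 1` over a finite field
`k` of characteristic `p`, let `k'/k` be an extension of degree `f ≥ 6`, `e = e_n ⊗_{W(k)} W(k')`
(the connective Morava E-theory of the same formal group over `k'`) and
`B = e ×_{Hk'} Hk`, the subring of `e` given by the elements whose residue class lies in `k`.  Then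
`B[1/p] = e[1/p]`, so `B` is an order in `e` and maps to the Galois extension
`M = e[1/p, 1/u] = E_n[1/p] ⊗_{W(k)} W(k')` of `E_n[1/p]` with group `Z/f`.  For EVERY finite
`F ≠ 0` with a `v_{n+1}` self map `v : Σ^d F → F`, `d ≥ 1` (this is automatic for `F` of type
`n + 1`), the homomorphism `v_* : F_{*-d} K(B) → F_* K(B)` fails to be surjective in infinitely many
degrees.  So clause (1) of Q1 fails as posed, also if one asks in addition that `π_0 B` is a domain
and that `B[1/p]` is a connected étale extension of `e_n[1/p]`.  `B` is not regular; for regular `B`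
Q1 stays open.

The theorem `result` below is a statement about commutative orthogonal ring spectra `e₀`, `e`, `H`,
`H'` with the properties of `e_n`, `e`, `Hk`, `Hk'` which are used; these are hypotheses, standard
facts for `e_n`; `e_n` itself is not constructed here.  All conditions of Q1 on `B` are proved.

## 1. The hypotheses of `result`, for `e₀ = e_n`, `e = e_n ⊗_{W(k)} W(k')`, `H = Hk`, `H' = Hk'`

* `E_∞` ring spectra are modelled by commutative orthogonal ring spectra
  (Mandell-May-Schwede-Shipley).  Spaces: the maps are the functions which are continuous on compact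
  Hausdorff probes, i.e. the maps of compactly generated spaces; base points are closed.  Homotopy
  groups are written as loops: `Lp R.self.seq a n` is the set of the maps `(I^a, ∂I^a) → (R_n, pt)`,
  which represent elements of `π_{a-n} R`, and `StEq x y` says that `x` and `y` represent the same
  element; `stn` is the suspension of loops, `ext` the product, `msum y x` stands for `∑_l y_l x_l`,
  `nsm R p` for `p ∈ π_0 R`, `RCh R Λ` are the ring homomorphisms `π_0 R → Λ`.
* `c`, `hρθ`, `hθ`: the homomorphisms `i : e₀ → e`, `ρ : e → H'`, `h : H → H'`, `k : e₀ → H` form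
  a commutative square; the endomorphisms `θ` of `e` and `θ'` of `H'` (given by the Frobenius of
  `k'/k`) satisfy `ρ θ = θ' ρ`, `θ' h = h`.  These strict equations can be achieved: take for `H'`
  the functorial Eilenberg-MacLane spectrum of `k'`, for `e` a cofibrant ring spectrum with action
  of the Galois group such that `e → H'` is an equivariant fibration, for `e₀` a cofibrant ring
  spectrum, and lift `e₀ → e` along the fibration.
* `he`, `hei`, `hH`, `hH'`, `hH'0`, `hh`, `hρ`, `hp`: `e`, `H`, `H'` are connective,
  `π_0 e = W(k')[[u_1, …, u_{n-1}]]` is a local ring, so it has only trivial idempotents, the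
  homotopy groups of `H'` in positive degrees vanish, `π_j H → π_j H'` is injective for `j ≥ 0`,
  `π_0 e → π_0 H' = k'` is surjective, `p = 0` in `π_0 H'`.
* `h1`, `h2`, `h3`: `e`, `H`, `H'` are semi-finite `e₀`-modules; `e` is free of rank `f` over `e_n`,
  `Hk = e_n / (p, u_1, …, u_{n-1}, u)` is a finite cell `e_n`-module, `Hk'` is a sum of `f` copies
  of it.  `SemiFin e₀` is the thick subcategory generated by `e₀`, which is the class of the
  retracts of finite cell modules, up to weak equivalence; `self` and `res` are the ring as a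
  module over itself and the restriction of scalars.
* `Λ = π_0 (e) / (p², u_1, …, u_{n-1}) = W_2(k')`: here `p² = 0` and every element killed by `p` is
  a multiple of `p`; `sg` is the Frobenius of `k'/k` on `W_2(k')`, `sg^f = 1`.  `Q` is the ring
  homomorphism `π_0 e → Λ`, `q` the isomorphism `π_0 (Hk') = k' = Λ / p`.
* `y_0, …, y_{f-1}` is a basis of `W(k')` over `W(k)`.  `GalInj` and `GalSur` say that
  `(x_l)_l ↦ (∑_l y_l θ^s(x_l))_s` is a bijection `(π_j e)^f → (π_j e)^f` for `j ≥ 0`, i.e. that
  `e ⊗_{e₀} e → ∏ e` is an equivalence (`e` is a Galois extension of `e₀`).  `GalDes` is descent for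
  `k'/k`: if `x_l ∈ k'` and `∑_l y_l θ'^s(x_l)` does not depend on `s`, then all `x_l` are in `k`.
  `hdet`: `det (sg^j (Q y_l))` is a unit modulo `p`; its square is the
  discriminant of this basis of `k'/k`.

## 2. `B` satisfies the conditions of Q1

All of the following is part of the conclusion of `result`: `B` is a commutative `e₀`-algebra
(`ι : e₀ → B`) with a homomorphism `π : B → e` of commutative `e₀`-algebras; for every commutative
`e`-algebra `M` there is a homomorphism `B → M` of `e₀`-algebras (`M = e[1/p, 1/u]`, the Galois
extension of `E_n[1/p]` with group `Z/f`); `B` is connective; `B` is connected, i.e. `π_0 B` has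
only trivial idempotents; `B` is a semi-finite `e₀`-module; `π_j B → π_j e` is injective for `j ≥ 0`
and its cokernel is killed by `p`.

## 3. `K(B)`

`Kth R` is the usual group completion model: `FC R` is the strict monoidal category of the
`R`-modules which are weakly equivalent to some `R^r`, and the weak equivalences (objects: finite
lists of such modules `P` together with a zigzag of weak equivalences `R^r ← P' → P'' ← P`; such a
zigzag exists for every module weakly equivalent to `R^r`, with `P'` a cofibrant replacement of
`R^r` and `P''` a fibrant replacement of `P`; morphisms: weak equivalences between the product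
modules; product: concatenation).  The nerve of the category is `⊔_r B hAut(R^r)` (Dwyer-Kan); weak
equivalence = `π_*`-isomorphism; products of modules are coproducts up to weak equivalence.  `Wb` is
the classifying space (`Wbar`) of this simplicial monoid and `Kth R` the Kan loop group of it, i.e.
`Ω B (⊔_r B hAut(R^r))`; it has the homotopy type of the infinite loop space of `K(R)` on base point
components.  It is a simplicial group, so a Kan complex, and `Cls X (Kth R)` is the set of pointed
homotopy classes `[X, Ω^∞ K(R)]_*` for connected `X`.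

## 4. Translation

`F ≠ 0` is a finite `p`-local spectrum of type `≥ n + 1 ≥ 2`, so it is `p`-torsion and its dual `DF`
is a finite spectrum.  For some `t` the spectrum `Σ^t DF` is the suspension spectrum of a finite
complex with minimal cells, i.e. of a finite pointed simplicial set `A` of dimension
`D = max {i : H_i (A; F_p) ≠ 0}` (`DimLe A D`, `HNe p A D`).  The dual `Σ^d DF → DF` of `v` is
(after enlarging `t`) the stable class of a map `|Σ^d A| → |A|`, which is represented by maps of
simplicial sets `Σ^d A ← At → A`, the first one, `s`, a weak equivalence (simplicial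
approximation, `At` an iterated subdivision of `Σ^d A`, `s` the last vertex map), so that `s` is
surjective on homology (`HSur p s (D + d)`; this is the only property of `s` used).  `d ≥ 1` holds
for every `v_{n+1}` self map of `F` of type `n + 1`.

`F_j K(B) = π_j (F ∧ K(B)) = [Σ^j DF, K(B)]`, and `v_*` is the composition with the dual of `v`.  So
for `j ≥ 1` the group `F_{j+t} K(B)` is `[Σ^j A, Kth B]_*`, and
`v_* : F_{j+t} K(B) → F_{j+t+d} K(B) = [Σ^j Σ^d A, Kth B]_*` is `w^*` followed by the inverse of the
bijection `s^*`.  Hence `v_*` is surjective in this degree if and only if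
`w^* : [Σ^j A, Kth B]_* → [Σ^j At, Kth B]_*` is surjective.  By `result` it is not for infinitely
many `j`.

Remark (not part of `result`): clause (2) of Q1 fails for the same `B`.  Take `F` of type `n + 1`;
it is `p`-torsion, so if `K(B) → L^f_{n+1} K(B)` were a `p`-adic equivalence in high degrees, then
`F_* K(B) → F_* L^f_{n+1} K(B) = F_* K(B)[1/v]` would be bijective in high degrees, and `v_*` too.

## 5. Idea of the proof

For weights `c_s ∈ Z` with sum zero the map `x ↦ Q(x) + ε (∑_s c_s sg^s(Q(x))) / p` is a ring
homomorphism `π_0 (B) → (Λ/p)[ε]`; it gives normalised cocycles on `Kth B`, additive for the group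
structure.  The fibre product `B'` of `f` copies of `e` over `H'` is a `B`-algebra by
`x ↦ (θ^s(x))_s`, and by the hypotheses on the `y_l` it is a free `B`-module of rank `f`.  Let
`t_a ∈ π_0 (B')` be `p` in the slot `a` and zero in the other slots, `t_a t_b = 0` for `a ≠ b`.  For
a colouring `β` of the cycle `Z/m` by slots, neighbours having different colours, the matrices
`1 + t_{β(i)} E_{i+1,i}` over `B'` commute, and they can be realised by strictly commuting maps of
modules; this gives a cube in the nerve for `B`, whose alternating product is a map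
`(Δ^1)^m / ∂ → Kth B`.  The value of the cocycle on its fundamental class is computed with the
determinant of the `sg^j (Q y_l)` and is not zero for suitable weights and colourings.  All cocycles
of degree `m = D + d + j` vanish on `Σ^j A` (dimension `< m`), but not on the class in
`[Σ^j At, Kth B]_*` obtained from the cube.
-/

set_option autoImplicit false
set_option linter.unusedVariables false

namespace Pool.Agent.Results.MP_d175a7_gt.GaloisOrder

open scoped Topology unitInterval
open Pool.Agent.MP_d175a7_gt

universe u v

/-- Let `e₀ → e → H' ← H ← e₀` be a commutative square of homomorphisms `i`, `ρ`, `h`, `k` of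
commutative orthogonal ring spectra, `θ`, `θ'` endomorphisms of `e`, `H'` with `ρ θ = θ' ρ`,
`θ' h = h`.  Let `e`, `H`, `H'` be connective and semi-finite over `e₀`, `e` with only trivial
idempotents in `π_0 e`, `π_k H' = 0` for `k > 0`, `π_k H → π_k H'` injective for `k ≥ 0`,
`π_0 e → π_0 H'` surjective, `p = 0` in `π_0 H'`; let `Λ` be a nonzero commutative ring in which
`p² = 0` and the annihilator of `p` is `p Λ`, with an endomorphism `sg`, `sg^f = 1`, `f ≥ 6`,
`Q : π_0 e → Λ`, `q : π_0 H' → Λ / p` ring homomorphisms with `q ρ = Q` modulo `p`, `Q θ = sg Q`;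
let `y_0, …, y_{f-1}` in `π_0 e` be such that `(x_l) ↦ (∑ y_l θ^s(x_l))_s` is a bijection
`(π_k e)^f → (π_k e)^f` for `k ≥ 0` (`GalInj`, `GalSur`), families `x_l` in `π_0 H'` with
`∑ y_l θ'^s(x_l)` independent of `s` come from `π_0 H` (`GalDes`), and `det (sg^j (Q y_l))` is a
unit modulo `p`.

Then there is a commutative orthogonal ring spectrum `B` with homomorphisms `ι : e₀ → B` and
`π : B → e`, `π ∘ ι = i`, such that: for every homomorphism `e → M` there is a homomorphism
`B → M` of algebras over `e₀`; `B` is connective; `B` has only trivial idempotents in `π_0 B`; `B`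
is a semi-finite `e₀`-module; `π_k B → π_k e` is injective for `k ≥ 0`, with cokernel killed by `p`
(for all `k`); and for all pointed simplicial sets `A` of dimension `≤ D` with
`H_D (A; F_p) ≠ 0`, all `d ≥ 1`, all `s : At → Σ^d A` which are surjective on
`H_{D+d} (·; F_p)`, and all `w : At → A`, the map `w^* : [Σ^j A, K(B)] → [Σ^j At, K(B)]` is not
surjective for arbitrarily large `j`. -/
theorem result {p : ℕ} [Fact p.Prime] {e₀ e H H' : RSp} {ρ : RHom e H'} {h : RHom H H'}
    {i : RHom e₀ e} {k : RHom e₀ H} (c : Sq4 ρ h i k)
    {θ : RHom e e} {θ' : RHom H' H'} (hρθ : EndC ρ θ θ')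
    (hθ : ∀ n y, θ'.f n (h.f n y) = h.f n y)
    (he : Connective e) (hei : Conn e) (hH : Connective H) (hH' : Connective H')
    (hH'0 : PosZero H')
    (hh : ∀ (a n : ℕ), n ≤ a → ∀ x x' : Lp H.self.seq a n,
      StEq (h.sh.lp x) (h.sh.lp x') → StEq x x')
    (h1 : SemiFin e₀ (e.self.res i)) (h2 : SemiFin e₀ (H.self.res k))
    (h3 : SemiFin e₀ (H'.self.res (i.comp ρ)))
    (hρ : ∀ (a : ℕ) (y : Lp H'.self.seq a a), ∃ (j : ℕ) (x : Lp e.self.seq (a + j) (a + j)),
      StEq (ρ.sh.lp x) (stn j y))
    (hp : StEq (nsm H' p) (cstLp H'.self.seq 1 1))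
    {Λ : Type} [CommRing Λ] [Nontrivial Λ] (hΛ : (p : Λ) ^ 2 = 0)
    (hf : ∀ x : Λ, (p : Λ) * x = 0 → ∃ y, x = p * y)
    (Q : RCh e Λ) (q : RCh H' (ResP p Λ)) (hq : ∀ (a : ℕ) (x : Lp e.self.seq a a),
      q.Q a (ρ.sh.lp x) = Ideal.Quotient.mk _ (Q.Q a x))
    (sg : Λ →+* Λ)
    (hsg : ∀ (a : ℕ) (x : Lp e.self.seq a a), Q.Q a (θ.sh.lp x) = sg (Q.Q a x))
    {f : ℕ} (hf6 : 6 ≤ f) (hsf : ∀ x, (sg ^ f) x = x) {m : ℕ}
    (y : Fin f → Lp e.self.seq (m + 1) (m + 1))
    (hG : GalInj θ y) (hG' : GalSur θ y) (hD : GalDes h θ' fun l => ρ.sh.lp (y l))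
    (hdet : IsUnit (Matrix.det (Matrix.of fun l j : Fin f =>
      (Ideal.Quotient.mk _ ((sg ^ j.1) (Q.Q (m + 1) (y l))) : ResP p Λ)))) :
    ∃ (B : RSp) (ι : RHom e₀ B) (π : RHom B e),
      (∀ n x, π.f n (ι.f n x) = i.f n x) ∧
      (∀ (M : RSp) (φ : RHom e M), ∃ ψ : RHom B M, ∀ n x, ψ.f n (ι.f n x) = φ.f n (i.f n x)) ∧
      Connective B ∧ Conn B ∧ SemiFin e₀ (B.self.res ι) ∧
      (∀ a n : ℕ, n ≤ a → ∀ z z' : Lp B.self.seq a n,
        StEq (π.sh.lp z) (π.sh.lp z') → StEq z z') ∧
      (∀ (a n : ℕ) (x : Lp e.self.seq a n),
        ∃ (j : ℕ) (z : Lp B.self.seq (1 + a + j) (1 + n + j)),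
          StEq (π.sh.lp z) (stn j (ext (P := e.self) (nsm e p) x))) ∧
      ∀ (D d : ℕ), 0 < d → ∀ (A : PS.{u}) (At : PS.{v}), DimLe A D → HNe p A D →
        ∀ s : PMap At (Susp d A), HSur p s (D + d) → ∀ (w : PMap At A) (N : ℕ),
          ∃ j, N ≤ j ∧ ¬ Function.Surjective
            (Cls.pre (Susp.pmap j w) : Cls (Susp j A) (Kth B) → Cls (Susp j At) (Kth B)) :=
  v3_final c hρθ hθ he hei hH hH' hH'0 hh h1 h2 h3 hρ hp hΛ hf Q q hq sg hsg hf6 hsf y hG hG' hD
    hdet

end Pool.Agent.Results.MP_d175a7_gt.GaloisOrder
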