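import Pool.Agent.Lib.MP_d175a7_gt.SqS

/-!
# Q1 fails for the truncated polynomial algebra `B = e_n[x]/(x²)`

Let `e` be a connective commutative ring spectrum such that `π_0 e` has only the idempotents
`0`, `1` and has a ring homomorphism to a nonzero commutative ring `k` with `p = 0` in `k`.  The
commutative `e`-algebra `B = e[x]/(x²) = e ∧ {*, 1, x}`, `x² = *`, is connective, has only trivial
idempotents, is semi-finite over `e` and retracts onto `e` (so it has an `e`-algebra
homomorphism to every commutative `e`-algebra `M`), and for all `v : Σ^d F → F` with `d > 0` and
`F` a finite spectrum with `H_*(F; F_p) ≠ 0` the map `v_* : F_(*-d) K(B) → F_* K(B)` is not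
surjective in infinitely many degrees.

Translation to the problem.  The facts about `e_n`, `F`, `v` in this table are standard and are not
formalised: the theorem is about all `e`, `A`, `At`, `s`, `w` with the stated properties.

* `RSp` : commutative orthogonal ring spectra (spaces `X n` with actions of `O(n)`, products
  `X m × X n → X (m + n)` which are equivariant, associative, unital and commutative up to the
  block permutation, unit maps `S^n → X n`).  Continuity is meant in the compactly generated sense:
  it is tested on continuous maps from compact Hausdorff spaces.  This is one of the standard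
  models of the commutative (`E_∞`) ring spectra.  `RHom` : homomorphisms, `MSp R` : module
  spectra, `R.self` : `R` as a module, `MSp.res` : restriction of scalars.
* `Lp P a n` : maps `I^a → P_n` which are the base point on the boundary, up to
  `GenLoop.Homotopic` (Mathlib), `stn j` : `j`-fold stabilisation, `StEq` : stable homotopy.
  So `π_k P` consists of the loops in `Lp P a n` with `a - n = k` up to stable homotopy.
  `ext` is the product and `GenLoop.transAt` (Mathlib) the sum of loops.
* `Connective` : `π_i = 0` for `i < 0`.  `Conn` : `π_0` has only the idempotents `0`, `1`.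
  `RCh e k` : ring homomorphisms `π_0 e → k`.  For `e = e_n` this is
  `W(k)⟦u_1, …, u_(n-1)⟧ → k`.
* `SemiFin e P` : `P` is in the thick subcategory generated by `e`, i.e. a retract of a finite
  cell `e`-module.
* `sq e`, `sqIn`, `sqAug` : the algebra `B = e[x]/(x²)`, `e → B`, `B → e`.  For `e = e_n` the
  composite `B → e_n → E_n[1/p]` is the homomorphism to the (trivial) Galois extension
  `M = E_n[1/p]`.
* `Kth B` : the algebraic K-theory space, the group completion (Kan loop group of the classifying
  space) of the nerve of the category of weak equivalences of free `B`-modules of finite rank.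
  A free object is a module `P` with weak equivalences `B^r ← P' → P'' ← P`; every module which is
  equivalent to `B^r` has such a zigzag (`P'` a cofibrant replacement of `B^r`, `P''` a fibrant
  replacement of `P`), so the nerve is the disjoint union of the classifying spaces of the homotopy
  automorphisms of `B^r`, `r ≥ 0` (Dwyer-Kan).  As `B` is connective, the homotopy groups of `Kth B`
  in positive degrees are the algebraic K-groups of `B`.
* `PS` : pointed simplicial sets, `PMap` : pointed maps, `Susp j A` : the `j`-fold reduced
  suspension, `Cls X Y` : pointed homotopy classes of maps (`Y` is a simplicial group, hence Kan),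
  `Cls.pre` : precomposition.
* `A` : a finite pointed simplicial set such that `F ≃ Σ^c D A` for some integer `c`, where `D A`
  is the Spanier-Whitehead dual.  (A `p`-local finite spectrum with a `v_(n+1)` self map is
  `p`-torsion, so it is a finite spectrum.)  `D` : the dimension of `A` in a minimal cell structure;
  then `DimLe A D`, and `HNe p A D`, i.e. `H_D(A; F_p) ≠ 0`, if `F` is not contractible.
* `w : At → A` : the dual of `v`, a map `|Σ^d A| → |A|` (after suspending `A`) which is
  simplicial on an iterated subdivision `At` of `Σ^d A`, `s : At → Σ^d A` : the last vertex map, a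
  weak equivalence, so `H_(D+d)(s; F_p)` is surjective (`HSur`).  If `K(n+1)_* F ≠ 0`, then
  `d > 0` for every `v_(n+1)` self map.
* `[Σ^j A, Kth B] = F_(j+c) K(B)` for `j > 0`, and `w^*` is `v_*`.  So the conclusion says that
  `v_*` is not surjective in infinitely many degrees: part 1 of Q1 fails for `B = e_n[x]/(x²)`, for
  every prime `p`, every `n ≥ 1` and every `(F, v)` as in the problem with `F` not contractible and
  `d > 0`.  Part 2 fails too: otherwise `F_* K(B) → F_* K(B)[1/v]` would be bijective in high
  degrees, because `F` is `p`-torsion.
-/

set_option autoImplicit false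

namespace Pool.Agent.Results.MP_d175a7_gt.TruncatedPolynomial

open Pool.Agent.MP_d175a7_gt

universe u v

/-- Let `e` be a connective commutative ring spectrum whose `π_0` has only the idempotents `0`,
`1` and a ring homomorphism to a nonzero ring `k` with `p = 0` (for example `e = e_n`).  Then
`B = e[x]/(x²)` is a connected semi-finite connective commutative `e`-algebra with an algebra
homomorphism to every commutative `e`-algebra, and `v_*` on `F_* K(B)` is not surjective in
infinitely many degrees for all `(F, v)` with `F` nonzero and `v` of positive degree. -/
theorem result {p : ℕ} [Fact p.Prime] (e : RSp) (he : Connective e) (hei : Conn e)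
    {k : Type} [CommRing k] [Nontrivial k] (hk : (p : k) = 0) (Q : RCh e k) :
    (∀ n x, (sqAug e).f n ((sqIn e).f n x) = x) ∧
      (∀ (M : RSp) (φ : RHom e M), ∃ ψ : RHom (sq e) M, ∀ n x, ψ.f n ((sqIn e).f n x) = φ.f n x) ∧
      Connective (sq e) ∧ Conn (sq e) ∧ SemiFin e ((sq e).self.res (sqIn e)) ∧
      ∀ (D d : ℕ), 0 < d → ∀ (A : PS.{u}) (At : PS.{v}), DimLe A D → HNe p A D →
        ∀ s : PMap At (Susp d A), HSur p s (D + d) → ∀ (w : PMap At A) (N : ℕ),
          ∃ j, N ≤ j ∧ ¬ Function.Surjective (Cls.pre (Susp.pmap j w) :
            Cls (Susp j A) (Kth (sq e)) → Cls (Susp j At) (Kth (sq e))) := by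
  obtain ⟨h1, h2, h3, h4, h5⟩ := sq_final.{u, v} e he hei hk Q
  exact ⟨h1, fun M φ => ⟨(sqAug e).comp φ, fun n x => rfl⟩, h2, h3, h4, h5⟩

end Pool.Agent.Results.MP_d175a7_gt.TruncatedPolynomial
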